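import Pool.Agent.V11231.TRF.Moment
import Pool.Agent.V11231.IXF.Defs
import Pool.Agent.H520R2.NMDefs

/-! Triangle detection by circuits whose negations are unreliable. -/

set_option autoImplicit false
set_option linter.unusedSectionVars false
set_option linter.unusedVariables false

namespace Pool.Agent.V11231.TRF

open Finset Pool.Agent.V11231.FLT Pool.Agent.V11231.VCF Pool.Agent.V11231.IXF
open Pool.Agent.H520R2.NM (Circuit Wire)

/-- A circuit of AND gates and OR gates of fan-in two for graphs with the vertices `0, ..., n - 1`,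
given by one bit for each unordered pair `e` of vertices. The input `(e, true)` is this bit and the
input `(e, false)` is its negation. `pure` says that there are no gates of other kinds. -/
structure EdgeCircuit (n : ℕ) where
  wires : ℕ
  gates : Circuit (Sym2 (Fin n) × Bool) wires
  pure : gates.fanins = []
  out : Wire (Sym2 (Fin n) × Bool) wires

/-- The number of gates. -/
def EdgeCircuit.size {n : ℕ} (C : EdgeCircuit n) : ℕ := C.gates.size

/-- The circuit accepts the graph with the bits `x` if the negated inputs of the pairs in `Z` are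
stuck at `0`. -/
def EdgeCircuit.Accepts {n : ℕ} (C : EdgeCircuit n) (x : Sym2 (Fin n) → Bool)
    (Z : Set (Sym2 (Fin n))) : Prop :=
  C.out.eval (literals x Z) (C.gates.vals (literals x Z)) = true

/-- The probability that the graph is accepted by a circuit that is chosen uniformly at random from
the family `C`, without faults. -/
noncomputable def acceptProb {n : ℕ} {R : Type} (C : R → EdgeCircuit n)
    (x : Sym2 (Fin n) → Bool) : ℝ :=
  (Nat.card {ρ : R // (C ρ).Accepts x ∅} : ℝ) / Nat.card R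

/-- The probability that the graph is accepted by a circuit that is chosen uniformly at random from
the family `C`, if each negated input is stuck at `0` independently with probability `1 / D` (each
pair `e` gets a random number `f e` from `0` to `D - 1`, and `0` means a fault). -/
noncomputable def faultyProb {n : ℕ} {R : Type} (C : R → EdgeCircuit n) (D : ℕ)
    (x : Sym2 (Fin n) → Bool) : ℝ :=
  (Nat.card {v : R × (Sym2 (Fin n) → Fin D) // (C v.1).Accepts x {e | (v.2 e : ℕ) = 0}} : ℝ) /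
    Nat.card (R × (Sym2 (Fin n) → Fin D))

/-- No loops. -/
def Loopless {n : ℕ} (x : Sym2 (Fin n) → Bool) : Prop := ∀ u : Fin n, x s(u, u) = false

/-- The number of edges. -/
def edges {n : ℕ} (x : Sym2 (Fin n) → Bool) : ℕ := (univ.filter fun e => x e = true).card

/-- The graph has a triangle. -/
def HasTriangle {n : ℕ} (x : Sym2 (Fin n) → Bool) : Prop :=
  ∃ u v w : Fin n, u ≠ v ∧ u ≠ w ∧ v ≠ w ∧ x s(u, v) = true ∧ x s(u, w) = true ∧ x s(v, w) = true

lemma tri_iff {n : ℕ} (x : Sym2 (Fin n) → Bool) :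
    ¬ (SimpleGraph.fromEdgeSet {e | x e = true}).CliqueFree 3 ↔ HasTriangle x := by
  unfold SimpleGraph.CliqueFree HasTriangle
  push Not
  constructor
  · rintro ⟨s, hs⟩
    rw [SimpleGraph.is3Clique_iff] at hs
    obtain ⟨a, b, c, h1, h2, h3, -⟩ := hs
    simp only [SimpleGraph.fromEdgeSet_adj, Set.mem_setOf_eq] at h1 h2 h3
    exact ⟨a, b, c, h1.2, h2.2, h3.2, h1.1, h2.1, h3.1⟩
  · rintro ⟨a, b, c, h1, h2, h3, h4, h5, h6⟩
    refine ⟨{a, b, c}, ?_⟩
    rw [SimpleGraph.is3Clique_iff]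
    exact ⟨a, b, c, by simp [h1, h4], by simp [h2, h5], by simp [h3, h6], rfl⟩

/-! ### Circuits -/

section circuits

variable {ι ι' : Type}

lemma eval_mono {n : ℕ} (a : Wire ι n) {y z : ι → Bool} {v v' : Fin n → Bool} (h : y ≤ z)
    (hv : v ≤ v') : a.eval y v ≤ a.eval z v' := by
  cases a with
  | input i => exact h i
  | const b => exact le_refl _
  | gate j => exact hv j

lemma vals_mono : ∀ {n : ℕ} (C : Circuit ι n), C.fanins = [] → ∀ {y z : ι → Bool}, y ≤ z →
    C.vals y ≤ C.vals z := by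
  intro n C
  induction C with
  | empty => intro _ y z _ i; exact Fin.elim0 i
  | and C a b ih =>
    intro hf y z h i
    have hC := ih hf h
    refine Fin.lastCases ?_ (fun j => ?_) i
    · simp only [Circuit.vals, Fin.snoc_last]
      have h1 := eval_mono a h hC
      have h2 := eval_mono b h hC
      revert h1 h2
      cases a.eval y (C.vals y) <;> cases a.eval z (C.vals z) <;>
        cases b.eval y (C.vals y) <;> cases b.eval z (C.vals z) <;> simp
    · simp only [Circuit.vals, Fin.snoc_castSucc]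
      exact hC j
  | or C a b ih =>
    intro hf y z h i
    have hC := ih hf h
    refine Fin.lastCases ?_ (fun j => ?_) i
    · simp only [Circuit.vals, Fin.snoc_last]
      have h1 := eval_mono a h hC
      have h2 := eval_mono b h hC
      revert h1 h2
      cases a.eval y (C.vals y) <;> cases a.eval z (C.vals z) <;>
        cases b.eval y (C.vals y) <;> cases b.eval z (C.vals z) <;> simp
    · simp only [Circuit.vals, Fin.snoc_castSucc]
      exact hC j
  | any C w u G a ih =>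
    intro hf
    simp [Circuit.fanins] at hf

/-- substitution of inputs and constants in a wire -/
def wsub (σ : ι → ι' ⊕ Bool) {n : ℕ} : Wire ι n → Wire ι' n
  | .input i => Sum.elim (fun j => .input j) (fun b => .const b) (σ i)
  | .const b => .const b
  | .gate j => .gate j

lemma wsub_eval (σ : ι → ι' ⊕ Bool) {n : ℕ} (a : Wire ι n) (x : ι' → Bool) (v : Fin n → Bool) :
    (wsub σ a).eval x v = a.eval (fun i => Sum.elim x id (σ i)) v := by
  cases a with
  | input i =>
    show (Sum.elim (fun j => Wire.input j) (fun b => Wire.const b) (σ i) : Wire ι' n).eval x v =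
      Sum.elim x id (σ i)
    rcases σ i with j | b <;> rfl
  | const b => rfl
  | gate j => rfl

/-- substitution of inputs and constants in a circuit -/
def csub (σ : ι → ι' ⊕ Bool) : {n : ℕ} → Circuit ι n → Circuit ι' n
  | _, .empty => .empty
  | _, .and C a b => .and (csub σ C) (wsub σ a) (wsub σ b)
  | _, .or C a b => .or (csub σ C) (wsub σ a) (wsub σ b)
  | _, .any C w u G a => .any (csub σ C) w u G (fun j => wsub σ (a j))

lemma csub_vals (σ : ι → ι' ⊕ Bool) {n : ℕ} (C : Circuit ι n) (x : ι' → Bool) :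
    (csub σ C).vals x = C.vals (fun i => Sum.elim x id (σ i)) := by
  induction C with
  | empty => rfl
  | and C a b ih => simp only [csub, Circuit.vals, ih, wsub_eval]
  | or C a b ih => simp only [csub, Circuit.vals, ih, wsub_eval]
  | any C w u G a ih => simp only [csub, Circuit.vals, ih, wsub_eval]

lemma csub_size (σ : ι → ι' ⊕ Bool) {n : ℕ} (C : Circuit ι n) : (csub σ C).size = C.size := by
  induction C with
  | empty => rfl
  | and C a b ih => simp only [csub, Circuit.size, ih]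
  | or C a b ih => simp only [csub, Circuit.size, ih]
  | any C w u G a ih => simp only [csub, Circuit.size, ih]

lemma csub_fanins (σ : ι → ι' ⊕ Bool) {n : ℕ} (C : Circuit ι n) :
    (csub σ C).fanins = C.fanins := by
  induction C with
  | empty => rfl
  | and C a b ih => simp only [csub, Circuit.fanins, ih]
  | or C a b ih => simp only [csub, Circuit.fanins, ih]
  | any C w u G a ih => simp only [csub, Circuit.fanins, ih]

end circuits

/-! ### The hidden graph -/

section host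

variable {n ns t D : ℕ}

/-- the pair `e` is a pair between the classes of the pair `k` -/
def Dom (t : ℕ) (e : Sym2 (Fin n)) (k : Sym2 (Fin ns)) : Prop :=
  ∃ (u v : Fin n) (a b : Fin ns), e = s(u, v) ∧ k = s(a, b) ∧ (u : ℕ) / t = a ∧
    (v : ℕ) / t = b ∧ a ≠ b

lemma dom_unique {e : Sym2 (Fin n)} {k k' : Sym2 (Fin ns)} (h : Dom t e k) (h' : Dom t e k') :
    k = k' := by
  obtain ⟨u, v, a, b, he, hk, hu, hv, -⟩ := h
  obtain ⟨u', v', a', b', he', hk', hu', hv', -⟩ := h'
  rw [he, Sym2.eq_iff] at he'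
  rw [hk, hk', Sym2.eq_iff]
  rcases he' with ⟨h1, h2⟩ | ⟨h1, h2⟩
  · left
    subst h1 h2
    exact ⟨Fin.ext (hu.symm.trans hu'), Fin.ext (hv.symm.trans hv')⟩
  · right
    subst h1 h2
    exact ⟨Fin.ext (hu.symm.trans hv'), Fin.ext (hv.symm.trans hu')⟩

/-- the positions in the classes -/
def posT (n t : ℕ) (x : Sym2 (Fin ns) → Bool) : Set (Sym2 (Fin n)) :=
  {e | ∃ k, Dom t e k ∧ x k = true}

lemma mem_posT (x : Sym2 (Fin ns) → Bool) (u v : Fin n) :
    s(u, v) ∈ posT n t x ↔ ∃ a b : Fin ns, (u : ℕ) / t = a ∧ (v : ℕ) / t = b ∧ a ≠ b ∧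
      x s(a, b) = true := by
  unfold posT Dom
  rw [Set.mem_setOf_eq]
  constructor
  · rintro ⟨k, ⟨u', v', a, b, he, hk, hu, hv, hab⟩, hx⟩
    rw [Sym2.eq_iff] at he
    rw [hk] at hx
    rcases he with ⟨h1, h2⟩ | ⟨h1, h2⟩
    · subst h1 h2
      exact ⟨a, b, hu, hv, hab, hx⟩
    · subst h1 h2
      exact ⟨b, a, hv, hu, hab.symm, by rw [Sym2.eq_swap]; exact hx⟩
  · rintro ⟨a, b, hu, hv, hab, hx⟩
    exact ⟨s(a, b), ⟨u, v, a, b, rfl, rfl, hu, hv, hab⟩, hx⟩

/-- the bits of the hidden graph -/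
noncomputable def bitsT (t : ℕ) (f : Sym2 (Fin n) → Fin D) (x : Sym2 (Fin ns) → Bool) :
    Sym2 (Fin n) → Bool := mix (posT n t x) (fun _ => false) f

lemma bitsT_true (f : Sym2 (Fin n) → Fin D) (x : Sym2 (Fin ns) → Bool) (u v : Fin n) :
    bitsT t f x s(u, v) = true ↔ (∃ a b : Fin ns, (u : ℕ) / t = a ∧ (v : ℕ) / t = b ∧ a ≠ b ∧
      x s(a, b) = true) ∧ (f s(u, v) : ℕ) = 0 := by
  unfold bitsT
  rw [mix_eq_true, mem_posT]

lemma bitsT_loopless (f : Sym2 (Fin n) → Fin D) (x : Sym2 (Fin ns) → Bool) :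
    Loopless (bitsT t f x) := by
  intro u
  rw [Bool.eq_false_iff]
  intro h
  rw [bitsT_true] at h
  obtain ⟨⟨a, b, h1, h2, h3, -⟩, -⟩ := h
  exact h3 (Fin.ext (h1.symm.trans h2))

lemma tri_small (f : Sym2 (Fin n) → Fin D) (x : Sym2 (Fin ns) → Bool)
    (h : HasTriangle (bitsT t f x)) : HasTriangle x := by
  obtain ⟨u, v, w, -, -, -, h1, h2, h3⟩ := h
  rw [bitsT_true] at h1 h2 h3
  obtain ⟨⟨a, b, ha, hb, hab, hx1⟩, -⟩ := h1
  obtain ⟨⟨a', c, ha', hc, hac, hx2⟩, -⟩ := h2
  obtain ⟨⟨b', c', hb', hc', hbc, hx3⟩, -⟩ := h3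
  have e1 : a' = a := Fin.ext (ha'.symm.trans ha)
  have e2 : b' = b := Fin.ext (hb'.symm.trans hb)
  have e3 : c' = c := Fin.ext (hc'.symm.trans hc)
  subst e1 e2 e3
  exact ⟨a', b', c', hab, hac, hbc, hx1, hx2, hx3⟩

/-- the vertices of a class -/
def pos (hn : ns * t ≤ n) (a : Fin ns) (i : Fin t) : Fin n :=
  ⟨(a : ℕ) * t + i, by
    have h1 := a.isLt
    have h2 := i.isLt
    calc (a : ℕ) * t + i < (a : ℕ) * t + t := by omega
      _ = (a + 1) * t := by ring
      _ ≤ ns * t := Nat.mul_le_mul_right t h1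
      _ ≤ n := hn⟩

lemma pos_div (hn : ns * t ≤ n) (a : Fin ns) (i : Fin t) : (pos hn a i : ℕ) / t = a := by
  have h2 := i.isLt
  show ((a : ℕ) * t + i) / t = a
  rw [Nat.mul_comm, Nat.mul_add_div (by omega), Nat.div_eq_of_lt h2, Nat.add_zero]

lemma pos_inj (hn : ns * t ≤ n) {a b : Fin ns} {i j : Fin t} (h : pos hn a i = pos hn b j) :
    a = b ∧ i = j := by
  have h1 : a = b := by
    have h2 := pos_div hn a i
    rw [h, pos_div hn b j] at h2
    exact Fin.ext h2.symm
  refine ⟨h1, ?_⟩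
  subst h1
  have h3 := Fin.mk.inj h
  exact Fin.ext (by omega)

/-- the pairs between three classes -/
def gg (hn : ns * t ≤ n) (a b c : Fin ns) (p : Fin 3 × (Fin t × Fin t)) : Sym2 (Fin n) :=
  if p.1 = 0 then s(pos hn a p.2.1, pos hn b p.2.2)
  else if p.1 = 1 then s(pos hn b p.2.1, pos hn c p.2.2)
  else s(pos hn a p.2.1, pos hn c p.2.2)

lemma gg_inj (hn : ns * t ≤ n) {a b c : Fin ns} (hab : a ≠ b) (hac : a ≠ c) (hbc : b ≠ c) :
    Function.Injective (gg hn a b c) := by
  have key : ∀ {a1 b1 a2 b2 : Fin ns} {i j i' j' : Fin t}, a1 ≠ b1 →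
      s(pos hn a1 i, pos hn b1 j) = s(pos hn a2 i', pos hn b2 j') →
      (a1 = a2 ∧ b1 = b2 ∧ i = i' ∧ j = j') ∨ (a1 = b2 ∧ b1 = a2) := by
    intro a1 b1 a2 b2 i j i' j' hne h
    rw [Sym2.eq_iff] at h
    rcases h with ⟨h1, h2⟩ | ⟨h1, h2⟩
    · obtain ⟨h3, h4⟩ := pos_inj hn h1
      obtain ⟨h5, h6⟩ := pos_inj hn h2
      exact Or.inl ⟨h3, h5, h4, h6⟩
    · obtain ⟨h3, h4⟩ := pos_inj hn h1
      obtain ⟨h5, h6⟩ := pos_inj hn h2
      exact Or.inr ⟨h3, h5⟩
  rintro ⟨p, i, j⟩ ⟨p', i', j'⟩ h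
  unfold gg at h
  have hp : p = 0 ∨ p = 1 ∨ p = 2 := by fin_cases p <;> simp
  have hp' : p' = 0 ∨ p' = 1 ∨ p' = 2 := by fin_cases p' <;> simp
  have n10 : ¬ (1 : Fin 3) = 0 := by decide
  have n20 : ¬ (2 : Fin 3) = 0 := by decide
  have n21 : ¬ (2 : Fin 3) = 1 := by decide
  rcases hp with rfl | rfl | rfl <;> rcases hp' with rfl | rfl | rfl <;>
    simp only [if_true, if_false, n10, n20, n21] at h
  · rcases key hab h with ⟨-, -, h1, h2⟩ | ⟨h1, -⟩
    · rw [h1, h2]
    · exact absurd h1 hab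
  · rcases key hab h with ⟨h1, -⟩ | ⟨h1, -⟩
    · exact absurd h1 hab
    · exact absurd h1 hac
  · rcases key hab h with ⟨-, h1, -⟩ | ⟨h1, -⟩
    · exact absurd h1 hbc
    · exact absurd h1 hac
  · rcases key hbc h with ⟨h1, -⟩ | ⟨-, h1⟩
    · exact absurd h1.symm hab
    · exact absurd h1.symm hac
  · rcases key hbc h with ⟨-, -, h1, h2⟩ | ⟨h1, -⟩
    · rw [h1, h2]
    · exact absurd h1 hbc
  · rcases key hbc h with ⟨h1, -⟩ | ⟨h1, -⟩
    · exact absurd h1.symm hab
    · exact absurd h1 hbc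
  · rcases key hac h with ⟨-, h1, -⟩ | ⟨h1, -⟩
    · exact absurd h1.symm hbc
    · exact absurd h1 hab
  · rcases key hac h with ⟨h1, -⟩ | ⟨h1, -⟩
    · exact absurd h1 hab
    · exact absurd h1 hac
  · rcases key hac h with ⟨-, -, h1, h2⟩ | ⟨h1, -⟩
    · rw [h1, h2]
    · exact absurd h1 hac

lemma tri_big (hn : ns * t ≤ n) (f : Sym2 (Fin n) → Fin D) (x : Sym2 (Fin ns) → Bool)
    {a b c : Fin ns} (hab : a ≠ b) (hac : a ≠ c) (hbc : b ≠ c) (h1 : x s(a, b) = true)
    (h2 : x s(a, c) = true) (h3 : x s(b, c) = true)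
    (hf : ∃ T : Fin t × Fin t × Fin t, AllZero (gg hn a b c) T f) :
    HasTriangle (bitsT t f x) := by
  obtain ⟨⟨i, j, k⟩, hz0, hz1, hz2⟩ := hf
  have n10 : ¬ (1 : Fin 3) = 0 := by decide
  have n20 : ¬ (2 : Fin 3) = 0 := by decide
  have n21 : ¬ (2 : Fin 3) = 1 := by decide
  simp only [gg, if_true, if_false, n10, n20, n21] at hz0 hz1 hz2
  refine ⟨pos hn a i, pos hn b j, pos hn c k, fun h => hab (pos_inj hn h).1,
    fun h => hac (pos_inj hn h).1, fun h => hbc (pos_inj hn h).1, ?_, ?_, ?_⟩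
  · rw [bitsT_true]
    exact ⟨⟨a, b, pos_div hn a i, pos_div hn b j, hab, h1⟩, hz0⟩
  · rw [bitsT_true]
    exact ⟨⟨a, c, pos_div hn a i, pos_div hn c k, hac, h2⟩, hz2⟩
  · rw [bitsT_true]
    exact ⟨⟨b, c, pos_div hn b j, pos_div hn c k, hbc, h3⟩, hz1⟩

open Classical in
/-- the number of the positions -/
lemma card_posT (ht : 0 < t) (x : Sym2 (Fin ns) → Bool) :
    (univ.filter fun e : Sym2 (Fin n) => e ∈ posT n t x).card ≤ edges x * (t * t) := by
  have hrep : ∀ e : Sym2 (Fin ns), ∃ a b, e = s(a, b) := fun e => e.ind fun a b => ⟨a, b, rfl⟩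
  choose A B hAB using hrep
  have hcl : ∀ a : Fin ns, (univ.filter fun u : Fin n => (u : ℕ) / t = a).card ≤ t := by
    intro a
    have h1 : (univ.filter fun u : Fin n => (u : ℕ) / t = a).card ≤
        (Finset.Ico ((a : ℕ) * t) ((a : ℕ) * t + t)).card := by
      refine card_le_card_of_injOn (fun u => (u : ℕ)) ?_ ?_
      · intro u hu
        simp only [coe_filter, mem_univ, true_and, Set.mem_setOf_eq] at hu
        rw [Finset.coe_Ico, Set.mem_Ico, ← hu]
        show (u : ℕ) / t * t ≤ (u : ℕ) ∧ (u : ℕ) < (u : ℕ) / t * t + t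
        have h2 := Nat.div_add_mod (u : ℕ) t
        have h3 := Nat.mod_lt (u : ℕ) ht
        rw [Nat.mul_comm] at h2
        omega
      · intro u _ v _ huv
        exact Fin.ext huv
    rw [Nat.card_Ico] at h1
    omega
  have hsub : (univ.filter fun e : Sym2 (Fin n) => e ∈ posT n t x) ⊆
      (univ.filter fun k : Sym2 (Fin ns) => x k = true).biUnion fun k =>
        ((univ.filter fun u : Fin n => (u : ℕ) / t = A k) ×ˢ
          (univ.filter fun u : Fin n => (u : ℕ) / t = B k)).image fun p => s(p.1, p.2) := by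
    intro e he
    rw [mem_filter] at he
    obtain ⟨-, k, ⟨u, v, a, b, he, hk, hu, hv, -⟩, hx⟩ := he
    rw [mem_biUnion]
    refine ⟨k, mem_filter.mpr ⟨mem_univ _, hx⟩, ?_⟩
    rw [mem_image]
    have h1 := hAB k
    rw [hk] at h1
    rw [Sym2.eq_iff] at h1
    rw [← hk] at h1
    rcases h1 with ⟨h1, h2⟩ | ⟨h1, h2⟩
    · refine ⟨(u, v), ?_, he.symm⟩
      rw [mem_product, mem_filter, mem_filter, ← h1, ← h2]
      exact ⟨⟨mem_univ _, hu⟩, ⟨mem_univ _, hv⟩⟩
    · refine ⟨(v, u), ?_, by rw [he]; exact Sym2.eq_swap⟩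
      rw [mem_product, mem_filter, mem_filter, ← h1, ← h2]
      exact ⟨⟨mem_univ _, hv⟩, ⟨mem_univ _, hu⟩⟩
  refine (card_le_card hsub).trans (card_biUnion_le.trans ?_)
  calc _ ≤ ∑ _k ∈ univ.filter (fun k : Sym2 (Fin ns) => x k = true), t * t := by
        refine sum_le_sum fun k _ => card_image_le.trans ?_
        rw [card_product]
        exact Nat.mul_le_mul (hcl _) (hcl _)
    _ = _ := by
        rw [sum_const, smul_eq_mul]
        rfl

open Classical in
/-- the hidden graph has few edges for most functions -/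
lemma card_many_edges (hD : 0 < D) (ht : t = 10 * D) (x : Sym2 (Fin ns) → Bool) (m : ℕ)
    (hm : 0 < m) (hx : edges x ≤ m) :
    ((univ.filter fun f : Sym2 (Fin n) → Fin D =>
      ¬ edges (bitsT t f x) ≤ 10 ^ 4 * D * m).card : ℝ) ≤
      1 / 100 * (D : ℝ) ^ Fintype.card (Sym2 (Fin n)) := by
  have hDR : (0 : ℝ) < D := by exact_mod_cast hD
  have hmR : (0 : ℝ) < m := by exact_mod_cast hm
  set T : Finset (Sym2 (Fin n)) := univ.filter fun e => e ∈ posT n t x with hT
  have hsz : ∀ f : Sym2 (Fin n) → Fin D, edges (bitsT t f x) =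
      (T.filter fun e => (f e : ℕ) = 0).card := by
    intro f
    unfold edges
    congr 1
    ext e
    rw [mem_filter, mem_filter, hT, mem_filter]
    unfold bitsT
    rw [mix_eq_true]
    constructor
    · rintro ⟨_, h1, h2⟩
      exact ⟨⟨mem_univ _, h1⟩, h2⟩
    · rintro ⟨⟨_, h1⟩, h2⟩
      exact ⟨mem_univ _, h1, h2⟩
  have hBc : T.card ≤ m * (t * t) :=
    (card_posT (by omega) x).trans (Nat.mul_le_mul_right _ hx)
  have h1 := Pool.Agent.V11231.SMF.card_many hD T (10 ^ 4 * D * m)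
  have h3 : (T.card : ℝ) ≤ 100 * D ^ 2 * m := by
    have h4 : T.card ≤ 100 * D ^ 2 * m := by
      refine hBc.trans (le_of_eq ?_)
      rw [ht]
      ring
    exact_mod_cast h4
  obtain ⟨P, hP⟩ : ∃ P : ℝ, P = (D : ℝ) ^ Fintype.card (Sym2 (Fin n)) := ⟨_, rfl⟩
  have h5 : 0 ≤ P := by rw [hP]; positivity
  rw [← hP] at h1 ⊢
  obtain ⟨K, hK⟩ : ∃ K : ℝ, K = ((univ.filter fun f : Sym2 (Fin n) → Fin D =>
      10 ^ 4 * D * m < (T.filter fun e => (f e : ℕ) = 0).card).card : ℝ) := ⟨_, rfl⟩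
  rw [← hK] at h1
  have h6 : (10 ^ 4 * (D : ℝ) ^ 2 * m) * K ≤ (10 ^ 4 * (D : ℝ) ^ 2 * m) * (1 / 100 * P) := by
    have h7 := mul_le_mul_of_nonneg_right h3 h5
    calc (10 ^ 4 * (D : ℝ) ^ 2 * m) * K = ((10 ^ 4 * D * m : ℕ) : ℝ) * D * K := by
          push_cast
          ring
      _ ≤ T.card * P := h1
      _ ≤ 100 * (D : ℝ) ^ 2 * m * P := h7
      _ = _ := by ring
  have h7 : K ≤ 1 / 100 * P := le_of_mul_le_mul_left h6 (by positivity)
  refine le_trans (le_of_eq ?_) h7
  rw [hK]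
  congr 2
  ext f
  rw [mem_filter, mem_filter, hsz, not_le]

open Classical in
/-- the substitution -/
noncomputable def sig (t : ℕ) (f : Sym2 (Fin n) → Fin D) (q : Sym2 (Fin n) × Bool) :
    Sym2 (Fin ns) ⊕ Bool :=
  if q.2 = true then
    (if h : (∃ k : Sym2 (Fin ns), Dom t q.1 k) ∧ (f q.1 : ℕ) = 0 then Sum.inl h.1.choose
      else Sum.inr false)
  else Sum.inr (decide ((f q.1 : ℕ) ≠ 0))

lemma sig_eq (f : Sym2 (Fin n) → Fin D) (x : Sym2 (Fin ns) → Bool) :
    (fun q => Sum.elim x id (sig t f q)) = literals (bitsT t f x) (flt f) := by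
  funext q
  obtain ⟨e, b⟩ := q
  unfold bitsT
  rw [Bool.eq_iff_iff]
  cases b
  · rw [lit_neg_true]
    unfold sig
    rw [if_neg (by simp)]
    simp
  · rw [lit_eq_true]
    unfold sig
    rw [if_pos rfl]
    by_cases h : (∃ k : Sym2 (Fin ns), Dom t e k) ∧ (f e : ℕ) = 0
    · rw [dif_pos h]
      have hk := h.1.choose_spec
      rw [Sum.elim_inl]
      constructor
      · intro hx
        exact ⟨⟨_, hk, hx⟩, h.2⟩
      · rintro ⟨⟨k, hk', hx⟩, -⟩
        rw [dom_unique hk hk']
        exact hx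
    · rw [dif_neg h]
      constructor
      · intro h1
        simp at h1
      · rintro ⟨⟨k, hk', hx⟩, h2⟩
        exact absurd ⟨⟨k, hk'⟩, h2⟩ h

end host

end Pool.Agent.V11231.TRF
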