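import Pool.Agent.V11231.TRF.Defs
import Pool.Agent.H559R9.Tri

/-! Triangle detection needs reliable negations. -/

set_option autoImplicit false
set_option linter.unusedSectionVars false
set_option linter.unusedVariables false

namespace Pool.Agent.V11231.TRF

open Finset Filter Pool.Agent.V11231.FLT Pool.Agent.V11231.VCF Pool.Agent.V11231.IXF
  Pool.Agent.V11231.OMF
open Pool.Agent.H520R2.NM (Circuit Wire)

section core

variable {n ns t D m : ℕ} {R : Type} [Fintype R] [Nonempty R]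

/-- acceptance for given values of the literals -/
def acc (C : R → EdgeCircuit n) (ρ : R) (y : Sym2 (Fin n) × Bool → Bool) : Prop :=
  (C ρ).out.eval y ((C ρ).gates.vals y) = true

lemma acc_mono (C : R → EdgeCircuit n) : ∀ ρ y z, y ≤ z → acc C ρ y → acc C ρ z := by
  intro ρ y z h h1
  unfold acc at h1 ⊢
  have h2 := eval_mono (C ρ).out h (vals_mono (C ρ).gates (C ρ).pure h)
  rw [h1] at h2
  exact Bool.eq_true_of_true_le h2

open Classical in
lemma positive (hD : 0 < D) (ht : t = 10 * D) (hn : ns * t ≤ n) (hm : 0 < m)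
    (C : R → EdgeCircuit n) (x : Sym2 (Fin ns) → Bool) (hx : edges x ≤ m) (htri : HasTriangle x)
    (h1 : ∀ y : Sym2 (Fin n) → Bool, Loopless y → edges y ≤ 10 ^ 4 * D * m → HasTriangle y →
      4 / 5 ≤ faultyProb C D y) :
    3 / 4 * (Fintype.card (R × (Sym2 (Fin n) → Fin D)) : ℝ) ≤
      ((univ.filter fun v : R × (Sym2 (Fin n) → Fin D) =>
        acc C v.1 (literals (bitsT t v.2 x) (flt v.2))).card : ℝ) := by
  have hF : Nonempty (Fin D) := ⟨⟨0, hD⟩⟩
  obtain ⟨a, b, c, hab, hac, hbc, e1, e2, e3⟩ := htri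
  refine thick_acc hD (acc C) (acc_mono C) (posT n t x) (fun _ => false)
    (fun f => (∃ T : Fin t × Fin t × Fin t, AllZero (gg hn a b c) T f) ∧
      edges (bitsT t f x) ≤ 10 ^ 4 * D * m) ?_ ?_
  · have g1 := card_no_tri hD ht (gg hn a b c) (gg_inj hn hab hac hbc)
    have g2 := card_many_edges (n := n) hD ht x m hm hx
    have g3 : ((univ.filter fun f : Sym2 (Fin n) → Fin D =>
        ¬ ((∃ T : Fin t × Fin t × Fin t, AllZero (gg hn a b c) T f) ∧
          edges (bitsT t f x) ≤ 10 ^ 4 * D * m)).card : ℝ) ≤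
        ((univ.filter fun f : Sym2 (Fin n) → Fin D =>
          ¬ ∃ T : Fin t × Fin t × Fin t, AllZero (gg hn a b c) T f).card : ℝ) +
        ((univ.filter fun f : Sym2 (Fin n) → Fin D =>
          ¬ edges (bitsT t f x) ≤ 10 ^ 4 * D * m).card : ℝ) := by
      have g4 : (univ.filter fun f : Sym2 (Fin n) → Fin D =>
          ¬ ((∃ T : Fin t × Fin t × Fin t, AllZero (gg hn a b c) T f) ∧
            edges (bitsT t f x) ≤ 10 ^ 4 * D * m)) ⊆
          (univ.filter fun f : Sym2 (Fin n) → Fin D =>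
            ¬ ∃ T : Fin t × Fin t × Fin t, AllZero (gg hn a b c) T f) ∪
          (univ.filter fun f : Sym2 (Fin n) → Fin D =>
            ¬ edges (bitsT t f x) ≤ 10 ^ 4 * D * m) := by
        intro f hf
        rw [mem_filter] at hf
        rw [mem_union, mem_filter, mem_filter]
        by_cases hp : ∃ T : Fin t × Fin t × Fin t, AllZero (gg hn a b c) T f
        · exact Or.inr ⟨mem_univ _, fun h => hf.2 ⟨hp, h⟩⟩
        · exact Or.inl ⟨mem_univ _, hp⟩
      exact_mod_cast (card_le_card g4).trans (card_union_le _ _)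
    have hP0 : (0 : ℝ) ≤ (D : ℝ) ^ Fintype.card (Sym2 (Fin n)) := by positivity
    refine le_trans (le_of_eq ?_) (g3.trans ?_)
    · congr!
    · linarith
  · rintro f ⟨hT, he⟩
    have h4 := h1 (bitsT t f x) (bitsT_loopless f x) he (tri_big hn f x hab hac hbc e1 e2 e3 hT)
    unfold faultyProb at h4
    have hΩ : (0 : ℝ) < Fintype.card (R × (Sym2 (Fin n) → Fin D)) := by
      exact_mod_cast Fintype.card_pos
    rw [le_div_iff₀ (by rw [Nat.card_eq_fintype_card]; exact hΩ)] at h4
    rw [Nat.card_eq_fintype_card (α := R × (Sym2 (Fin n) → Fin D))] at h4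
    refine h4.trans ?_
    rw [Nat.card_eq_fintype_card, Fintype.card_subtype, Nat.cast_le]
    refine card_le_card fun v hv => ?_
    rw [mem_filter] at hv ⊢
    exact hv

open Classical in
lemma negative (hD : 0 < D) (ht : t = 10 * D) (hm : 0 < m)
    (C : R → EdgeCircuit n) (x : Sym2 (Fin ns) → Bool) (hx : edges x ≤ m) (htri : ¬ HasTriangle x)
    (h2 : ∀ y : Sym2 (Fin n) → Bool, Loopless y → edges y ≤ 10 ^ 4 * D * m → ¬ HasTriangle y →
      acceptProb C y ≤ 1 / 4) :
    ((univ.filter fun v : R × (Sym2 (Fin n) → Fin D) =>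
        acc C v.1 (literals (bitsT t v.2 x) (flt v.2))).card : ℝ) ≤
      3 / 10 * (Fintype.card (R × (Sym2 (Fin n) → Fin D)) : ℝ) := by
  have hR : (0 : ℝ) < Fintype.card R := by exact_mod_cast Fintype.card_pos
  refine thick_rej2 hD (acc C) (acc_mono C) (posT n t x) (fun _ => false)
    (fun f => edges (bitsT t f x) ≤ 10 ^ 4 * D * m) ?_ ?_
  · have g2 := card_many_edges (n := n) hD ht x m hm hx
    have hP0 : (0 : ℝ) ≤ (D : ℝ) ^ Fintype.card (Sym2 (Fin n)) := by positivity
    refine le_trans (le_of_eq ?_) (g2.trans ?_)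
    · congr!
    · linarith
  · intro f he
    have h4 := h2 (bitsT t f x) (bitsT_loopless f x) he (fun h => htri (tri_small f x h))
    unfold acceptProb at h4
    rw [div_le_iff₀ (by rw [Nat.card_eq_fintype_card]; exact hR),
      Nat.card_eq_fintype_card (α := R)] at h4
    refine le_trans ?_ h4
    rw [Nat.card_eq_fintype_card, Fintype.card_subtype, Nat.cast_le]
    refine card_le_card fun ρ hρ => ?_
    rw [mem_filter] at hρ ⊢
    exact hρ

end core

open Classical in
/-- the circuit, or a trivial one if it is large -/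
noncomputable def trunc {n : ℕ} (K : ℝ) (C : EdgeCircuit n) : EdgeCircuit n :=
  if (C.size : ℝ) < K then C else ⟨0, .empty, rfl, .const false⟩

lemma trunc_size {n : ℕ} {K : ℝ} (hK : 0 < K) (C : EdgeCircuit n) :
    ((trunc K C).size : ℝ) < K := by
  unfold trunc
  split_ifs with h
  · exact h
  · show ((0 : ℕ) : ℝ) < K
    simpa using hK

/-- acceptance of one circuit -/
def acc1 {n : ℕ} (C : EdgeCircuit n) (y : Sym2 (Fin n) × Bool → Bool) : Prop :=
  C.out.eval y (C.gates.vals y) = true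

lemma acc_trunc {n : ℕ} {R : Type} (K : ℝ) (C : R → EdgeCircuit n) (ρ : R)
    (y : Sym2 (Fin n) × Bool → Bool) (h : acc (fun ρ => trunc K (C ρ)) ρ y) : acc C ρ y := by
  have h2 : acc1 (trunc K (C ρ)) y := h
  by_cases h1 : ((C ρ).size : ℝ) < K
  · have h3 : trunc K (C ρ) = C ρ := if_pos h1
    rw [h3] at h2
    exact h2
  · have h3 : trunc K (C ρ) = ⟨0, .empty, rfl, .const false⟩ := if_neg h1
    rw [h3] at h2
    exact absurd h2 (by simp [acc1, Wire.eval])

lemma trunc_acc {n : ℕ} {R : Type} (K : ℝ) (C : R → EdgeCircuit n) (ρ : R)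
    (y : Sym2 (Fin n) × Bool → Bool) (h : acc C ρ y) :
    acc (fun ρ => trunc K (C ρ)) ρ y ∨ K ≤ (C ρ).size := by
  by_cases h1 : ((C ρ).size : ℝ) < K
  · left
    show acc1 (trunc K (C ρ)) y
    have h3 : trunc K (C ρ) = C ρ := if_pos h1
    rw [h3]
    exact h
  · right
    exact not_lt.mp h1

open Classical in
/-- **Triangle detection needs reliable negations.** -/
theorem tri_fault (θ : ℝ) (hθ : 0 < θ) (h : θ < 3 / 2) :
    ∃ m0 : ℕ, ∀ m D n : ℕ, m0 ≤ m → 1 ≤ D → 400 * D ^ 2 * m ≤ n ^ 2 →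
      ∀ (R : Type) [Fintype R] [Nonempty R] (C : R → EdgeCircuit n),
      (∀ y : Sym2 (Fin n) → Bool, Loopless y → edges y ≤ 10 ^ 4 * D * m → HasTriangle y →
        4 / 5 ≤ faultyProb C D y) →
      (∀ y : Sym2 (Fin n) → Bool, Loopless y → edges y ≤ 10 ^ 4 * D * m → ¬ HasTriangle y →
        acceptProb C y ≤ 1 / 4) →
      (m : ℝ) ^ θ ≤ (∑ ρ, ((C ρ).size : ℝ)) / Fintype.card R := by
  obtain ⟨θ', hθ1, hθ2⟩ := exists_between h
  obtain ⟨α, hα, hev⟩ := Pool.Agent.H559R9.tri_sparse 0 θ' le_rfl (by linarith) (by linarith)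
  have hsmall : ∀ᶠ m : ℕ in atTop, (m : ℝ) ^ (-α) ≤ 1 / 5 := by
    have h1 : Tendsto (fun m : ℕ => (m : ℝ) ^ (-α)) atTop (nhds 0) :=
      (tendsto_rpow_neg_atTop hα).comp tendsto_natCast_atTop_atTop
    exact (h1.eventually_le_const (by norm_num : (0 : ℝ) < 1 / 5))
  have hsmall2 : ∀ᶠ m : ℕ in atTop, (m : ℝ) ^ (-(θ' - θ)) ≤ 1 / 20 := by
    have h1 : Tendsto (fun m : ℕ => (m : ℝ) ^ (-(θ' - θ))) atTop (nhds 0) :=
      (tendsto_rpow_neg_atTop (by linarith : 0 < θ' - θ)).comp tendsto_natCast_atTop_atTop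
    exact (h1.eventually_le_const (by norm_num : (0 : ℝ) < 1 / 20))
  obtain ⟨m0, hm0⟩ := eventually_atTop.1
    (hev.and (hsmall.and (hsmall2.and (eventually_ge_atTop 1))))
  refine ⟨m0, fun m D n hm hD hn R _ _ C h1 h2 => ?_⟩
  obtain ⟨hblack, hαm, hβm, hm1⟩ := hm0 m hm
  by_contra hcon
  push Not at hcon
  have hmR : (0 : ℝ) < m := by exact_mod_cast hm1
  have hR : (0 : ℝ) < Fintype.card R := by exact_mod_cast Fintype.card_pos
  obtain ⟨K, hK⟩ : ∃ K : ℝ, K = (m : ℝ) ^ θ' := ⟨_, rfl⟩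
  have hK0 : 0 < K := by rw [hK]; positivity
  -- few circuits are large
  have hbig : ((univ.filter fun ρ : R => K ≤ (C ρ).size).card : ℝ) ≤
      1 / 20 * Fintype.card R := by
    rw [div_lt_iff₀ hR] at hcon
    have h3 : ((univ.filter fun ρ : R => K ≤ (C ρ).size).card : ℝ) * K ≤
        ∑ ρ, ((C ρ).size : ℝ) := by
      rw [← nsmul_eq_mul, ← sum_const]
      refine (sum_le_sum fun ρ hρ => ?_).trans
        (sum_le_sum_of_subset_of_nonneg (subset_univ _) fun ρ _ _ => Nat.cast_nonneg _)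
      rw [mem_filter] at hρ
      exact hρ.2
    have h4 : (m : ℝ) ^ θ ≤ 1 / 20 * K := by
      calc (m : ℝ) ^ θ = (m : ℝ) ^ (-(θ' - θ)) * K := by
            rw [hK, ← Real.rpow_add hmR]
            congr 1
            ring
        _ ≤ _ := mul_le_mul_of_nonneg_right hβm hK0.le
    have h5 : ((univ.filter fun ρ : R => K ≤ (C ρ).size).card : ℝ) * K ≤
        (1 / 20 * Fintype.card R) * K := by
      refine h3.trans (hcon.le.trans ?_)
      calc (m : ℝ) ^ θ * Fintype.card R ≤ (1 / 20 * K) * Fintype.card R :=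
            mul_le_mul_of_nonneg_right h4 hR.le
        _ = _ := by ring
    exact le_of_mul_le_mul_right h5 hK0
  obtain ⟨ns, hns⟩ : ∃ ns, ns = Nat.sqrt m + 1 := ⟨_, rfl⟩
  have hmns : m ≤ ns ^ 2 := by
    have h3 := Nat.lt_succ_sqrt m
    rw [hns, sq]
    exact h3.le
  have hsq1 : 1 ≤ Nat.sqrt m := by
    rw [Nat.one_le_iff_ne_zero, ne_eq, Nat.sqrt_eq_zero]
    omega
  have hnst : ns * (10 * D) ≤ n := by
    have h3 : ns ≤ 2 * Nat.sqrt m := by omega
    have h4 : Nat.sqrt m * Nat.sqrt m ≤ m := Nat.sqrt_le m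
    have h5 : (ns * (10 * D)) ^ 2 ≤ n ^ 2 := by
      calc (ns * (10 * D)) ^ 2 ≤ (2 * Nat.sqrt m * (10 * D)) ^ 2 :=
            Nat.pow_le_pow_left (Nat.mul_le_mul_right _ h3) 2
        _ = 400 * D ^ 2 * (Nat.sqrt m * Nat.sqrt m) := by ring
        _ ≤ 400 * D ^ 2 * m := Nat.mul_le_mul_left _ h4
        _ ≤ n ^ 2 := hn
    exact (Nat.pow_le_pow_iff_left (by norm_num)).mp h5
  have hD0 : 0 < D := hD
  have hF : Nonempty (Fin D) := ⟨⟨0, hD0⟩⟩
  have hΩ : (0 : ℝ) < Fintype.card (R × (Sym2 (Fin n) → Fin D)) := by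
    exact_mod_cast Fintype.card_pos
  obtain ⟨W, hW⟩ : ∃ W : ℝ, W = (Fintype.card (R × (Sym2 (Fin n) → Fin D)) : ℝ) := ⟨_, rfl⟩
  have hbigv : ((univ.filter fun v : R × (Sym2 (Fin n) → Fin D) =>
      K ≤ (C v.1).size).card : ℝ) ≤ 1 / 20 * W := by
    have h3 : (univ.filter fun v : R × (Sym2 (Fin n) → Fin D) => K ≤ (C v.1).size) =
        (univ.filter fun ρ : R => K ≤ (C ρ).size) ×ˢ
          (univ : Finset (Sym2 (Fin n) → Fin D)) := by
      ext v
      simp
    rw [h3, card_product, card_univ, hW, Fintype.card_prod]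
    push_cast
    rw [← mul_assoc]
    exact mul_le_mul_of_nonneg_right hbig (Nat.cast_nonneg _)
  rw [← hW] at hΩ
  obtain ⟨C', hC'⟩ : ∃ C' : R → EdgeCircuit n, C' = fun ρ => trunc K (C ρ) := ⟨_, rfl⟩
  have hsz : ∀ ρ, ((C' ρ).size : ℝ) < K := by
    intro ρ
    rw [hC']
    exact trunc_size hK0 (C ρ)
  obtain ⟨-, hb⟩ := hblack ns hmns
  obtain ⟨x, hx, hlt⟩ := hb (R × (Sym2 (Fin n) → Fin D)) (fun _ => 1 / W)
    (fun _ => by positivity) (by
      rw [sum_const, card_univ, nsmul_eq_mul, ← hW]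
      field_simp)
    (fun v => (C' v.1).wires) (fun v => csub (sig (10 * D) v.2) (C' v.1).gates)
    (fun v => wsub (sig (10 * D) v.2) (C' v.1).out)
    (by
      intro v
      rw [csub_fanins, (C' v.1).pure]
      simp)
    (by
      intro v
      rw [csub_fanins, (C' v.1).pure, csub_size]
      simp only [List.sum_nil, add_zero]
      rw [← hK]
      exact hsz v.1)
  have hx' : edges x ≤ m := by
    refine le_trans (le_of_eq ?_) hx
    unfold edges
    congr!
  have hacc : ∀ v : R × (Sym2 (Fin n) → Fin D),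
      ((wsub (sig (10 * D) v.2) (C' v.1).out).eval x
        ((csub (sig (10 * D) v.2) (C' v.1).gates).vals x) = true ↔
        acc C' v.1 (literals (bitsT (10 * D) v.2 x) (flt v.2))) := by
    intro v
    rw [wsub_eval, csub_vals, sig_eq]
    rfl
  rw [sum_const, nsmul_eq_mul, mul_one_div] at hlt
  have hlt2 : ((univ.filter fun v : R × (Sym2 (Fin n) → Fin D) =>
      (acc C' v.1 (literals (bitsT (10 * D) v.2 x) (flt v.2)) ↔ HasTriangle x)).card : ℝ) / W <
      1 / 2 + (m : ℝ) ^ (-α) := by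
    refine lt_of_le_of_lt (le_of_eq ?_) hlt
    congr 2
    refine congrArg Finset.card ?_
    ext v
    rw [mem_filter, mem_filter, hacc, tri_iff]
  rw [div_lt_iff₀ hΩ] at hlt2
  have hfin : (1 / 2 + (m : ℝ) ^ (-α)) * W ≤ 7 / 10 * W :=
    mul_le_mul_of_nonneg_right (by linarith) hΩ.le
  by_cases htri : HasTriangle x
  · have key := positive hD0 rfl hnst hm1 C x hx' htri h1
    rw [← hW] at key
    have g1 : ((univ.filter fun v : R × (Sym2 (Fin n) → Fin D) =>
        acc C v.1 (literals (bitsT (10 * D) v.2 x) (flt v.2))).card : ℝ) ≤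
        ((univ.filter fun v : R × (Sym2 (Fin n) → Fin D) =>
          acc C' v.1 (literals (bitsT (10 * D) v.2 x) (flt v.2))).card : ℝ) +
        ((univ.filter fun v : R × (Sym2 (Fin n) → Fin D) => K ≤ (C v.1).size).card : ℝ) := by
      have g2 : (univ.filter fun v : R × (Sym2 (Fin n) → Fin D) =>
          acc C v.1 (literals (bitsT (10 * D) v.2 x) (flt v.2))) ⊆
          (univ.filter fun v : R × (Sym2 (Fin n) → Fin D) =>
            acc C' v.1 (literals (bitsT (10 * D) v.2 x) (flt v.2))) ∪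
          (univ.filter fun v : R × (Sym2 (Fin n) → Fin D) => K ≤ (C v.1).size) := by
        intro v hv
        rw [mem_filter] at hv
        rw [mem_union, mem_filter, mem_filter, hC']
        rcases trunc_acc K C v.1 _ hv.2 with h3 | h3
        · exact Or.inl ⟨mem_univ _, h3⟩
        · exact Or.inr ⟨mem_univ _, h3⟩
      exact_mod_cast (card_le_card g2).trans (card_union_le _ _)
    have e1 : (univ.filter fun v : R × (Sym2 (Fin n) → Fin D) =>
        (acc C' v.1 (literals (bitsT (10 * D) v.2 x) (flt v.2)) ↔ HasTriangle x)) =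
        univ.filter fun v : R × (Sym2 (Fin n) → Fin D) =>
          acc C' v.1 (literals (bitsT (10 * D) v.2 x) (flt v.2)) := by
      ext v
      simp only [mem_filter, htri, iff_true]
    rw [e1] at hlt2
    linarith
  · have key := negative (n := n) (t := 10 * D) hD0 rfl hm1 C x hx' htri h2
    rw [← hW] at key
    have g1 : ((univ.filter fun v : R × (Sym2 (Fin n) → Fin D) =>
        acc C' v.1 (literals (bitsT (10 * D) v.2 x) (flt v.2))).card : ℝ) ≤
        ((univ.filter fun v : R × (Sym2 (Fin n) → Fin D) =>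
          acc C v.1 (literals (bitsT (10 * D) v.2 x) (flt v.2))).card : ℝ) := by
      have g2 : (univ.filter fun v : R × (Sym2 (Fin n) → Fin D) =>
          acc C' v.1 (literals (bitsT (10 * D) v.2 x) (flt v.2))) ⊆
          (univ.filter fun v : R × (Sym2 (Fin n) → Fin D) =>
            acc C v.1 (literals (bitsT (10 * D) v.2 x) (flt v.2))) := by
        intro v hv
        rw [mem_filter, hC'] at hv
        rw [mem_filter]
        exact ⟨mem_univ _, acc_trunc K C v.1 _ hv.2⟩
      exact_mod_cast card_le_card g2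
    have e2 := Finset.card_filter_add_card_filter_not
      (s := (univ : Finset (R × (Sym2 (Fin n) → Fin D))))
      (p := fun v => acc C' v.1 (literals (bitsT (10 * D) v.2 x) (flt v.2)))
    rw [card_univ] at e2
    have e3 : ((univ.filter fun v : R × (Sym2 (Fin n) → Fin D) =>
        acc C' v.1 (literals (bitsT (10 * D) v.2 x) (flt v.2))).card : ℝ) +
        ((univ.filter fun v : R × (Sym2 (Fin n) → Fin D) =>
          ¬ acc C' v.1 (literals (bitsT (10 * D) v.2 x) (flt v.2))).card : ℝ) = W := by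
      rw [hW]
      exact_mod_cast e2
    have e1 : (univ.filter fun v : R × (Sym2 (Fin n) → Fin D) =>
        (acc C' v.1 (literals (bitsT (10 * D) v.2 x) (flt v.2)) ↔ HasTriangle x)) =
        univ.filter fun v : R × (Sym2 (Fin n) → Fin D) =>
          ¬ acc C' v.1 (literals (bitsT (10 * D) v.2 x) (flt v.2)) := by
      ext v
      simp only [mem_filter, htri, iff_false]
    rw [e1] at hlt2
    linarith

end Pool.Agent.V11231.TRF
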