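import Mathlib

/-! Random tripartite graphs contain triangles: the second moment. -/

set_option autoImplicit false
set_option linter.unusedSectionVars false
set_option linter.unusedVariables false

namespace Pool.Agent.V11231.TRF

open Finset

variable {E : Type} [Fintype E] [DecidableEq E]

open Classical in
lemma card_zeros {D : ℕ} (hD : 0 < D) (Q : Finset E) :
    (D : ℝ) ^ Q.card * ((univ.filter fun f : E → Fin D => ∀ e ∈ Q, (f e : ℕ) = 0).card : ℝ) =
      (D : ℝ) ^ Fintype.card E := by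
  have h1 : (univ.filter fun f : E → Fin D => ∀ e ∈ Q, (f e : ℕ) = 0) =
      Fintype.piFinset fun e => if e ∈ Q then ({⟨0, hD⟩} : Finset (Fin D)) else univ := by
    ext f
    rw [mem_filter, Fintype.mem_piFinset]
    constructor
    · rintro ⟨_, h⟩ e
      by_cases he : e ∈ Q
      · rw [if_pos he, mem_singleton]
        exact Fin.ext (h e he)
      · rw [if_neg he]
        exact mem_univ _
    · intro h
      refine ⟨mem_univ _, fun e he => ?_⟩
      have h2 := h e
      rw [if_pos he, mem_singleton] at h2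
      rw [h2]
  rw [h1, Fintype.card_piFinset]
  push_cast
  have h3 : (D : ℝ) ^ Q.card = ∏ e : E, if e ∈ Q then (D : ℝ) else 1 := by
    rw [Finset.prod_ite_mem, univ_inter, prod_const]
  rw [h3, ← prod_mul_distrib,
    show (D : ℝ) ^ Fintype.card E = ∏ _e : E, (D : ℝ) by rw [prod_const, card_univ]]
  refine prod_congr rfl fun e _ => ?_
  by_cases he : e ∈ Q
  · simp [he]
  · simp [he]

section

variable {t D : ℕ}

/-- all three pairs are zero -/
def AllZero (g : Fin 3 × (Fin t × Fin t) → E) (T : Fin t × Fin t × Fin t) (f : E → Fin D) : Prop :=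
  (f (g (0, (T.1, T.2.1))) : ℕ) = 0 ∧ (f (g (1, (T.2.1, T.2.2))) : ℕ) = 0 ∧
    (f (g (2, (T.1, T.2.2))) : ℕ) = 0

open Classical in
/-- the indicator -/
noncomputable def zz (g : Fin 3 × (Fin t × Fin t) → E) (T : Fin t × Fin t × Fin t)
    (f : E → Fin D) : ℝ := if AllZero g T f then 1 else 0

open Classical in
/-- the factor of a pair -/
noncomputable def fac (D : ℕ) (a b : Fin t × Fin t) : ℝ := if a = b then D else 1

lemma pow_pair {D : ℕ} (hD : 0 < D) (g : Fin 3 × (Fin t × Fin t) → E) (hg : Function.Injective g)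
    (c : Fin 3) (a b : Fin t × Fin t) :
    (D : ℝ) ^ ({g (c, a), g (c, b)} : Finset E).card * fac D a b = (D : ℝ) ^ 2 := by
  unfold fac
  by_cases h : a = b
  · subst h
    rw [if_pos rfl, Finset.pair_eq_singleton, card_singleton]
    ring
  · rw [if_neg h, card_pair (fun h1 => h (Prod.mk.inj (hg h1)).2), mul_one]

open Classical in
lemma sum_zz (hD : 0 < D) (g : Fin 3 × (Fin t × Fin t) → E) (hg : Function.Injective g)
    (T T' : Fin t × Fin t × Fin t) :
    (D : ℝ) ^ 6 * ∑ f : E → Fin D, zz g T f * zz g T' f =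
      (D : ℝ) ^ Fintype.card E * (fac D (T.1, T.2.1) (T'.1, T'.2.1) *
        fac D (T.2.1, T.2.2) (T'.2.1, T'.2.2) * fac D (T.1, T.2.2) (T'.1, T'.2.2)) := by
  set Q0 : Finset E := {g (0, (T.1, T.2.1)), g (0, (T'.1, T'.2.1))} with hQ0
  set Q1 : Finset E := {g (1, (T.2.1, T.2.2)), g (1, (T'.2.1, T'.2.2))} with hQ1
  set Q2 : Finset E := {g (2, (T.1, T.2.2)), g (2, (T'.1, T'.2.2))} with hQ2
  have hne : ∀ (c c' : Fin 3) (a b : Fin t × Fin t), c ≠ c' → g (c, a) ≠ g (c', b) :=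
    fun c c' a b h h1 => h (Prod.mk.inj (hg h1)).1
  have hd01 : Disjoint Q0 Q1 := by
    rw [hQ0, hQ1, disjoint_left]
    intro x hx hx'
    simp only [mem_insert, mem_singleton] at hx hx'
    rcases hx with rfl | rfl <;> rcases hx' with h | h <;> exact hne _ _ _ _ (by decide) h
  have hd02 : Disjoint (Q0 ∪ Q1) Q2 := by
    rw [disjoint_union_left, hQ0, hQ1, hQ2]
    constructor
    · rw [disjoint_left]
      intro x hx hx'
      simp only [mem_insert, mem_singleton] at hx hx'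
      rcases hx with rfl | rfl <;> rcases hx' with h | h <;> exact hne _ _ _ _ (by decide) h
    · rw [disjoint_left]
      intro x hx hx'
      simp only [mem_insert, mem_singleton] at hx hx'
      rcases hx with rfl | rfl <;> rcases hx' with h | h <;> exact hne _ _ _ _ (by decide) h
  have h1 := card_zeros hD (Q0 ∪ Q1 ∪ Q2)
  rw [card_union_of_disjoint hd02, card_union_of_disjoint hd01] at h1
  have h2 : ∑ f : E → Fin D, zz g T f * zz g T' f =
      ((univ.filter fun f : E → Fin D => ∀ e ∈ Q0 ∪ Q1 ∪ Q2, (f e : ℕ) = 0).card : ℝ) := by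
    rw [← Finset.sum_boole]
    refine sum_congr rfl fun f _ => ?_
    have h3 : (∀ e ∈ Q0 ∪ Q1 ∪ Q2, (f e : ℕ) = 0) ↔ (AllZero g T f ∧ AllZero g T' f) := by
      unfold AllZero
      rw [hQ0, hQ1, hQ2]
      simp only [mem_union, mem_insert, mem_singleton]
      constructor
      · intro h
        refine ⟨⟨h _ ?_, h _ ?_, h _ ?_⟩, ⟨h _ ?_, h _ ?_, h _ ?_⟩⟩ <;> simp
      · rintro ⟨⟨a1, a2, a3⟩, ⟨b1, b2, b3⟩⟩ e ((( rfl | rfl) | (rfl | rfl)) | (rfl | rfl)) <;>
          assumption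
    unfold zz
    by_cases ha : AllZero g T f
    · by_cases hb : AllZero g T' f
      · rw [if_pos ha, if_pos hb, if_pos (h3.mpr ⟨ha, hb⟩)]
        norm_num
      · rw [if_neg hb, if_neg (fun h => hb (h3.mp h).2)]
        norm_num
    · rw [if_neg ha, if_neg (fun h => ha (h3.mp h).1)]
      norm_num
  rw [h2, ← h1]
  have p0 := pow_pair hD g hg 0 (T.1, T.2.1) (T'.1, T'.2.1)
  have p1 := pow_pair hD g hg 1 (T.2.1, T.2.2) (T'.2.1, T'.2.2)
  have p2 := pow_pair hD g hg 2 (T.1, T.2.2) (T'.1, T'.2.2)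
  rw [← hQ0] at p0
  rw [← hQ1] at p1
  rw [← hQ2] at p2
  rw [pow_add, pow_add]
  obtain ⟨K, hK⟩ : ∃ K : ℝ, K = ((univ.filter fun f : E → Fin D =>
    ∀ e ∈ Q0 ∪ Q1 ∪ Q2, (f e : ℕ) = 0).card : ℝ) := ⟨_, rfl⟩
  rw [← hK]
  calc (D : ℝ) ^ 6 * K = (D : ℝ) ^ 2 * (D : ℝ) ^ 2 * (D : ℝ) ^ 2 * K := by ring
    _ = ((D : ℝ) ^ Q0.card * fac D (T.1, T.2.1) (T'.1, T'.2.1)) *
        ((D : ℝ) ^ Q1.card * fac D (T.2.1, T.2.2) (T'.2.1, T'.2.2)) *
        ((D : ℝ) ^ Q2.card * fac D (T.1, T.2.2) (T'.1, T'.2.2)) * K := by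
          rw [p0, p1, p2]
    _ = _ := by ring

open Classical in
lemma fac_le (hD : 0 < D) (T T' : Fin t × Fin t × Fin t) :
    fac D (T.1, T.2.1) (T'.1, T'.2.1) * fac D (T.2.1, T.2.2) (T'.2.1, T'.2.2) *
      fac D (T.1, T.2.2) (T'.1, T'.2.2) ≤
      1 + D * ((if T.1 = T'.1 ∧ T.2.1 = T'.2.1 then (1 : ℝ) else 0) +
        (if T.2.1 = T'.2.1 ∧ T.2.2 = T'.2.2 then 1 else 0) +
        (if T.1 = T'.1 ∧ T.2.2 = T'.2.2 then 1 else 0)) + D ^ 3 * (if T = T' then 1 else 0) := by
  have hDR : (1 : ℝ) ≤ D := by exact_mod_cast hD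
  have hD3 : (0 : ℝ) ≤ (D : ℝ) ^ 3 := by positivity
  obtain ⟨i, j, k⟩ := T
  obtain ⟨i', j', k'⟩ := T'
  unfold fac
  simp only [Prod.mk.injEq]
  by_cases h1 : i = i'
  · by_cases h2 : j = j'
    · by_cases h3 : k = k'
      · simp only [h1, h2, h3, and_self, if_true]
        nlinarith
      · simp only [h1, h2, h3, and_self, and_false, if_true, if_false]
        linarith
    · by_cases h3 : k = k'
      · simp only [h1, h2, h3, and_self, and_false, false_and, if_true, if_false]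
        linarith
      · simp only [h1, h2, h3, and_self, and_false, false_and, if_true, if_false]
        linarith
  · by_cases h2 : j = j'
    · by_cases h3 : k = k'
      · simp only [h1, h2, h3, and_self, and_false, false_and, if_true, if_false]
        linarith
      · simp only [h1, h2, h3, and_self, and_false, false_and, if_true, if_false]
        linarith
    · simp only [h1, h2, and_self, and_false, false_and, if_true, if_false]
      linarith

open Classical in
lemma sum_fac (hD : 0 < D) (T : Fin t × Fin t × Fin t) :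
    ∑ T' : Fin t × Fin t × Fin t, (fac D (T.1, T.2.1) (T'.1, T'.2.1) *
      fac D (T.2.1, T.2.2) (T'.2.1, T'.2.2) * fac D (T.1, T.2.2) (T'.1, T'.2.2)) ≤
      (t : ℝ) ^ 3 + 3 * D * t + D ^ 3 := by
  refine (sum_le_sum fun T' _ => fac_le hD T T').trans ?_
  rw [sum_add_distrib, sum_add_distrib, ← mul_sum, ← mul_sum, sum_add_distrib, sum_add_distrib]
  rw [sum_const, card_univ, Fintype.card_prod, Fintype.card_prod, Fintype.card_fin, nsmul_eq_mul,
    mul_one, Finset.sum_boole, Finset.sum_boole, Finset.sum_boole]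
  have c1 : ((univ.filter fun T' : Fin t × Fin t × Fin t =>
      T.1 = T'.1 ∧ T.2.1 = T'.2.1).card : ℝ) ≤ t := by
    have : (univ.filter fun T' : Fin t × Fin t × Fin t =>
        T.1 = T'.1 ∧ T.2.1 = T'.2.1).card ≤ (univ : Finset (Fin t)).card := by
      refine card_le_card_of_injOn (fun T' => T'.2.2) (fun _ _ => mem_coe.mpr (mem_univ _)) ?_
      intro x hx y hy hxy
      simp only [coe_filter, mem_univ, true_and, Set.mem_setOf_eq] at hx hy
      exact Prod.ext (hx.1.symm.trans hy.1) (Prod.ext (hx.2.symm.trans hy.2) hxy)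
    rw [card_univ, Fintype.card_fin] at this
    exact_mod_cast this
  have c2 : ((univ.filter fun T' : Fin t × Fin t × Fin t =>
      T.2.1 = T'.2.1 ∧ T.2.2 = T'.2.2).card : ℝ) ≤ t := by
    have : (univ.filter fun T' : Fin t × Fin t × Fin t =>
        T.2.1 = T'.2.1 ∧ T.2.2 = T'.2.2).card ≤ (univ : Finset (Fin t)).card := by
      refine card_le_card_of_injOn (fun T' => T'.1) (fun _ _ => mem_coe.mpr (mem_univ _)) ?_
      intro x hx y hy hxy
      simp only [coe_filter, mem_univ, true_and, Set.mem_setOf_eq] at hx hy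
      exact Prod.ext hxy (Prod.ext (hx.1.symm.trans hy.1) (hx.2.symm.trans hy.2))
    rw [card_univ, Fintype.card_fin] at this
    exact_mod_cast this
  have c3 : ((univ.filter fun T' : Fin t × Fin t × Fin t =>
      T.1 = T'.1 ∧ T.2.2 = T'.2.2).card : ℝ) ≤ t := by
    have : (univ.filter fun T' : Fin t × Fin t × Fin t =>
        T.1 = T'.1 ∧ T.2.2 = T'.2.2).card ≤ (univ : Finset (Fin t)).card := by
      refine card_le_card_of_injOn (fun T' => T'.2.1) (fun _ _ => mem_coe.mpr (mem_univ _)) ?_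
      intro x hx y hy hxy
      simp only [coe_filter, mem_univ, true_and, Set.mem_setOf_eq] at hx hy
      exact Prod.ext (hx.1.symm.trans hy.1) (Prod.ext hxy (hx.2.symm.trans hy.2))
    rw [card_univ, Fintype.card_fin] at this
    exact_mod_cast this
  have c4 : ∑ x : Fin t × Fin t × Fin t, (if T = x then (1 : ℝ) else 0) = 1 := by
    simp
  rw [c4]
  have hDR : (0 : ℝ) ≤ D := by positivity
  have c5 := mul_le_mul_of_nonneg_left (add_le_add (add_le_add c1 c2) c3) hDR
  push_cast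
  linarith

open Classical in
/-- **Triangles.** -/
theorem card_no_tri (hD : 0 < D) (ht : t = 10 * D) (g : Fin 3 × (Fin t × Fin t) → E)
    (hg : Function.Injective g) :
    ((univ.filter fun f : E → Fin D => ¬ ∃ T : Fin t × Fin t × Fin t, AllZero g T f).card : ℝ) ≤
      31 / 1000 * (D : ℝ) ^ Fintype.card E := by
  have hDR : (1 : ℝ) ≤ D := by exact_mod_cast hD
  have hD0 : (0 : ℝ) < D := by linarith
  have htR : (t : ℝ) = 10 * D := by exact_mod_cast ht
  obtain ⟨P, hP⟩ : ∃ P : ℝ, P = (D : ℝ) ^ Fintype.card E := ⟨_, rfl⟩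
  have hP0 : 0 < P := by rw [hP]; positivity
  have hcardF : ((Fintype.card (E → Fin D) : ℕ) : ℝ) = P := by
    rw [hP, Fintype.card_fun, Fintype.card_fin]
    push_cast
    rfl
  rw [← hP]
  set X : (E → Fin D) → ℝ := fun f => ∑ T : Fin t × Fin t × Fin t, zz g T f with hX
  have hzz : ∀ T f, zz g T f * zz g T f = zz (D := D) g T f := by
    intro T f
    unfold zz
    split_ifs <;> norm_num
  -- the first moment
  have h1 : (D : ℝ) ^ 3 * ∑ f, X f = (t : ℝ) ^ 3 * P := by
    have h2 : ∀ T : Fin t × Fin t × Fin t, (D : ℝ) ^ 3 * ∑ f : E → Fin D, zz g T f = P := by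
      intro T
      have h3 := sum_zz hD g hg T T
      simp only [hzz] at h3
      unfold fac at h3
      simp only [if_true] at h3
      rw [← hP] at h3
      have h4 : (D : ℝ) ^ 3 ≠ 0 := by positivity
      refine mul_left_cancel₀ h4 ?_
      calc (D : ℝ) ^ 3 * ((D : ℝ) ^ 3 * ∑ f : E → Fin D, zz g T f) =
          (D : ℝ) ^ 6 * ∑ f : E → Fin D, zz g T f := by ring
        _ = _ := h3
        _ = _ := by ring
    rw [hX]
    simp only
    rw [sum_comm, mul_sum, sum_congr rfl fun T _ => h2 T, sum_const, card_univ,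
      Fintype.card_prod, Fintype.card_prod, Fintype.card_fin, nsmul_eq_mul]
    push_cast
    ring
  -- the second moment
  have h2 : (D : ℝ) ^ 6 * ∑ f, X f ^ 2 ≤ P * ((t : ℝ) ^ 3 * ((t : ℝ) ^ 3 + 3 * D * t + D ^ 3)) := by
    have h3 : ∑ f, X f ^ 2 = ∑ T : Fin t × Fin t × Fin t, ∑ T' : Fin t × Fin t × Fin t,
        ∑ f : E → Fin D, zz g T f * zz g T' f := by
      have h4 : ∀ f : E → Fin D, X f ^ 2 = ∑ T : Fin t × Fin t × Fin t,
          ∑ T' : Fin t × Fin t × Fin t, zz g T f * zz g T' f := by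
        intro f
        rw [hX]
        simp only
        rw [sq, sum_mul_sum]
      rw [sum_congr rfl fun f _ => h4 f, sum_comm]
      refine sum_congr rfl fun T _ => ?_
      rw [sum_comm]
    rw [h3, mul_sum]
    have h4 : ∀ T : Fin t × Fin t × Fin t, (D : ℝ) ^ 6 * ∑ T' : Fin t × Fin t × Fin t,
        ∑ f : E → Fin D, zz g T f * zz g T' f ≤ P * ((t : ℝ) ^ 3 + 3 * D * t + D ^ 3) := by
      intro T
      rw [mul_sum, sum_congr rfl fun T' _ => sum_zz hD g hg T T', ← hP, ← mul_sum]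
      exact mul_le_mul_of_nonneg_left (sum_fac hD T) hP0.le
    refine (sum_le_sum fun T _ => h4 T).trans (le_of_eq ?_)
    rw [sum_const, card_univ, Fintype.card_prod, Fintype.card_prod, Fintype.card_fin,
      nsmul_eq_mul]
    push_cast
    ring
  -- Chebyshev
  obtain ⟨μ, hμ⟩ : ∃ μ : ℝ, μ * (D : ℝ) ^ 3 = (t : ℝ) ^ 3 :=
    ⟨(t : ℝ) ^ 3 / (D : ℝ) ^ 3, by field_simp⟩
  obtain ⟨K, hK⟩ : ∃ K : ℝ, K = ((univ.filter fun f : E → Fin D =>
    ¬ ∃ T : Fin t × Fin t × Fin t, AllZero g T f).card : ℝ) := ⟨_, rfl⟩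
  rw [← hK]
  have h3 : K * μ ^ 2 ≤ ∑ f, (X f - μ) ^ 2 := by
    rw [hK, ← nsmul_eq_mul, ← sum_const]
    refine (sum_le_sum fun f hf => ?_).trans (sum_le_sum_of_subset_of_nonneg (subset_univ _)
      fun f _ _ => sq_nonneg _)
    rw [mem_filter] at hf
    have h4 : X f = 0 := by
      rw [hX]
      simp only
      refine sum_eq_zero fun T _ => ?_
      unfold zz
      rw [if_neg fun h => hf.2 ⟨T, h⟩]
    rw [h4]
    linarith
  have h4 : ∑ f, (X f - μ) ^ 2 = ∑ f, X f ^ 2 - 2 * μ * ∑ f, X f + μ ^ 2 * P := by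
    have h5 : ∀ f : E → Fin D, (X f - μ) ^ 2 = X f ^ 2 - 2 * μ * X f + μ ^ 2 := fun f => by ring
    rw [sum_congr rfl fun f _ => h5 f, sum_add_distrib, sum_sub_distrib, ← mul_sum, sum_const,
      card_univ, nsmul_eq_mul, hcardF]
    ring
  obtain ⟨A, hA⟩ : ∃ A : ℝ, A = ∑ f, X f := ⟨_, rfl⟩
  obtain ⟨B, hB⟩ : ∃ B : ℝ, B = ∑ f, X f ^ 2 := ⟨_, rfl⟩
  rw [← hA] at h1 h4
  rw [← hB] at h2 h4
  rw [h4] at h3
  obtain ⟨q, hq⟩ : ∃ q : ℝ, q = (D : ℝ) ^ 3 := ⟨_, rfl⟩
  have hq0 : 0 < q := by rw [hq]; positivity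
  have hq6 : (D : ℝ) ^ 6 = q ^ 2 := by rw [hq]; ring
  have ht3 : (t : ℝ) ^ 3 = 1000 * q := by rw [htR, hq]; ring
  rw [hq6, ht3, ← hq] at h2
  rw [← hq, ht3] at h1
  rw [← hq, ht3] at hμ
  have hμ1 : μ = 1000 := by
    have h5 : μ * q = 1000 * q := hμ
    exact mul_right_cancel₀ hq0.ne' h5
  have hA1 : A = 1000 * P := by
    have h5 : q * A = q * (1000 * P) := by rw [h1]; ring
    exact mul_left_cancel₀ hq0.ne' h5
  rw [hμ1, hA1] at h3
  have h6 : 3 * (D : ℝ) * t ≤ 30 * q := by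
    rw [htR, hq]
    have h7 : (D : ℝ) ^ 2 ≤ (D : ℝ) ^ 3 := pow_le_pow_right₀ hDR (by norm_num)
    nlinarith
  have h7 : q ^ 2 * B ≤ q ^ 2 * (P * 1031000) := by
    refine h2.trans ?_
    have h8 : 1000 * q + 3 * (D : ℝ) * t + q ≤ 1031 * q := by linarith
    calc P * (1000 * q * (1000 * q + 3 * (D : ℝ) * t + q)) ≤ P * (1000 * q * (1031 * q)) := by
          refine mul_le_mul_of_nonneg_left ?_ hP0.le
          exact mul_le_mul_of_nonneg_left h8 (by positivity)
      _ = _ := by ring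
  have h8 : B ≤ P * 1031000 := le_of_mul_le_mul_left h7 (by positivity)
  nlinarith

end

end Pool.Agent.V11231.TRF
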